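import Pool.Agent.Lib.MP_263291_gt.Defs
import Pool.Agent.Lib.MP_263291_gt.Main

set_option autoImplicit false

open Pool.Agent.Lib.MP_263291_gt

/-- Any two points of a connected locally WDC set `M ⊂ ℝ^d` are joined by a rectifiable curve lying
in `M`, in every dimension `d` (compactness of `M` is not needed). -/
theorem Pool.Agent.Results.MP_263291_gt.RectifiablyConnected.result (d : ℕ) (M : Set (E d))
    (hM : IsLocallyWDC M) (hconn : IsPreconnected M) :
    ∀ x ∈ M, ∀ y ∈ M, RectJoined M x y :=
  fun _ hx _ hy => rectJoined_of_isLocallyWDC hM hconn hx hy
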